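import Pool.Agent.H.MP_563d58_an.B
import Pool.Agent.H.MP_a7579f_an.C
import Pool.Agent.H.MP_496271_an.A
namespace Pool.Agent.H.MP_e9741b_an
open Metric Filter Topology Complex Real MeasureTheory ComplexConjugate
open Pool.Agent.H.MP_a7579f_an Pool.Agent.H.MP_563d58_an Pool.Agent.H.MP_c4e2dd_an
open Pool.Agent.H.MP_ceba03_an Pool.Agent.H.MP_e9aa5f_an Pool.Agent.H.MP_496271_an

lemma K_ne {w : ℂ} (hw : w ∈ K) : w ≠ 1 ∧ w ≠ -1 :=
  ⟨fun h => hw.2 (by simp [h]), fun h => hw.2 (by simp [h])⟩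

lemma fn_conj (n : ℕ) {w : ℂ} (hw : w ∈ K) : fn n (conj w) = conj (fn n w) := by
  have h : arg ((1 + w) / (1 - w)) ≠ π := fun h => (s_nonneg hw.1).not_gt (arg_eq_pi_iff.1 h).1
  rw [fn, fn, ← exp_conj, MP_c4e2dd_an.lam, MP_c4e2dd_an.lam,
    show (1 + conj w) / (1 - conj w) = conj ((1 + w) / (1 - w)) by simp, log_conj _ h]
  simp only [add_sub_add_right_eq_sub, map_neg, map_pow, map_div₀, map_sub, conj_ofReal, map_ofNat]

lemma fn_im (n : ℕ) {w : ℂ} (hw : w ∈ closedBall (0 : ℂ) 1) :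
    ‖fn n w - conj (fn n w)‖ ≤ 4 * rexp 1 * (1 / (n + 1)) := by
  obtain ⟨h1, h2⟩ := lam_st hw
  obtain ⟨u, hu⟩ : ∃ u, u = (MP_c4e2dd_an.lam w - (((n + 1) ^ 3 : ℝ) + π / 4 * I)) / (n + 1 : ℝ) :=
    ⟨_, rfl⟩
  have h3 : |u.im| ≤ 1 / (n + 1) := by
    rw [hu, div_ofReal_im, abs_div, abs_of_pos (a := (n + 1 : ℝ)) (by positivity)]
    gcongr
    simp only [sub_im, add_im, ofReal_im, mul_I_im, div_ofNat_re, ofReal_re, zero_add]
    exact abs_le.2 ⟨by linarith [pi_le_four], by linarith [pi_le_four]⟩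
  have h4 : |u.im| ≤ 1 := h3.trans (div_le_one_of_le₀ (by simp) (by positivity))
  rw [fn, ← hu, sub_conj, norm_mul, norm_I, mul_one, norm_real, exp_im, Real.norm_eq_abs, abs_mul,
    abs_mul, abs_two, Real.abs_exp, neg_re, neg_im, sq, mul_re, mul_im]
  have h5 := (Real.abs_sin_le_abs (x := -(u.re * u.im + u.im * u.re))).trans_eq
    (show _ = 2 * |u.re| * |u.im| by rw [abs_neg, mul_comm u.im, ← two_mul, abs_mul, abs_mul,
      abs_two, mul_assoc])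
  have h6 : rexp (-(u.re * u.re - u.im * u.im)) * |u.re| ≤ rexp 1 := by
    rw [neg_sub, Real.exp_sub, div_mul_eq_mul_div, div_le_iff₀ (Real.exp_pos _)]
    gcongr
    · nlinarith [abs_mul_abs_self u.im, abs_nonneg u.im]
    · nlinarith [abs_mul_abs_self u.re, Real.add_one_le_exp (u.re * u.re)]
  nlinarith [mul_le_mul_of_nonneg_left h5 (Real.exp_pos (-(u.re * u.re - u.im * u.im))).le,
    mul_le_mul h6 h3 (abs_nonneg _) (Real.exp_pos _).le]

lemma near2 {ε : ℝ} (hε : 0 < ε) (N : ℕ) : ∃ δ > 0, ∀ w ∈ K, ‖w - 1‖ < δ → ∃ k ≥ N,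
    ∀ c : ℕ → ℂ, (∀ n, ‖c n‖ ≤ 1) → ‖MP_a7579f_an.FF c w - c k * fn k w‖ ≤ ε := by
  obtain ⟨y, hy⟩ := eventually_atTop.1
    ((γ_tend.eventually (ge_mem_nhds hε)).and (eventually_ge_atTop ((N + 1 : ℝ) ^ 3 + (N + 1) ^ 2)))
  refine ⟨2 / (1 + rexp (2 * y)), by positivity, fun w hw h => ?_⟩
  obtain ⟨h1, h2⟩ := K_ne hw
  have h3 : ‖1 + w‖ = rexp (2 * (MP_c4e2dd_an.lam w).re) * ‖1 - w‖ := by
    rw [show 2 * (MP_c4e2dd_an.lam w).re = Real.log ‖(1 + w) / (1 - w)‖ by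
      simp [MP_c4e2dd_an.lam, log_re]; ring, Real.exp_log (norm_pos_iff.2 (s_ne h1 h2)), norm_div,
      div_mul_cancel₀ _ (norm_ne_zero_iff.2 (sub_ne_zero.2 h1.symm))]
  have h4 : y ≤ (MP_c4e2dd_an.lam w).re := not_lt.1 fun h4 => by
    have h5 := norm_add_le (1 + w) (1 - w)
    rw [show 1 + w + (1 - w) = 2 by ring, Complex.norm_ofNat, h3, norm_sub_rev] at h5
    rw [lt_div_iff₀ (by positivity)] at h
    nlinarith [mul_le_mul_of_nonneg_left (Real.exp_le_exp.2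
      (show 2 * (MP_c4e2dd_an.lam w).re ≤ 2 * y by linarith)) (norm_nonneg (w - 1))]
  obtain ⟨k, hN, hk⟩ := Ex_one _ N (hy _ h4).2
  exact ⟨k, hN, fun c hc => (FF_near' hc hw.1 hk).trans (hy _ h4).1⟩

lemma FF_sym {c : ℕ → ℂ} (hc : ∀ n, ‖c n‖ ≤ 1) {ε : ℝ} (hε : 0 < ε) : ∃ δ > 0, ∀ w ∈ K,
    ‖w - 1‖ < δ → ‖MP_a7579f_an.FF c w - MP_a7579f_an.FF c (conj w)‖ ≤ ε := by
  obtain ⟨N, hN⟩ := eventually_atTop.1 ((tendsto_one_div_add_atTop_nhds_zero_nat.const_mul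
    (4 * rexp 1)).eventually (ge_mem_nhds (a := ε / 3) (by simpa)))
  obtain ⟨δ, d0, hδ⟩ := near2 (ε := ε / 3) (by positivity) N
  refine ⟨δ, d0, fun w hw h => ?_⟩
  obtain ⟨k, h1, h2⟩ := hδ w hw h
  have h3 := h2 (fun n => conj (c n)) (by simpa using hc)
  rw [← norm_conj, map_sub, map_mul, conj_conj, MP_a7579f_an.FF, conj_tsum] at h3
  simp only [map_mul, conj_conj, ← fn_conj _ hw] at h3
  have h4 := norm_add_le_of_le (norm_sub_le_of_le (h2 c hc) h3)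
    (norm_mul_le_of_le (hc k) ((fn_im k hw.1).trans (hN k h1)))
  rw [← fn_conj _ hw] at h4
  exact (le_of_eq (by unfold MP_a7579f_an.FF; congr 1; ring)).trans (h4.trans_eq (by ring))

lemma FF_pt {ε : ℝ} (hε : 0 < ε) : ∃ δ > 0, ∀ n, ∀ w ∈ K, ‖fn n w - 1‖ < δ → ‖w - 1‖ < δ →
    ∀ c : ℕ → ℂ, (∀ n, ‖c n‖ ≤ 1) → ‖MP_a7579f_an.FF c w - c n‖ ≤ ε := by
  have e0 : 0 < min (ε / 2) (1 / 2) := by positivity
  obtain ⟨δ, d0, hδ⟩ := near' e0
  refine ⟨_, lt_min d0 e0, fun n w hw h1 h2 c hc => ?_⟩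
  obtain ⟨k, hk⟩ := hδ _ hw (lt_min_iff.1 h2).1
  obtain ⟨-, h3, h4⟩ : _ ∧ _ ∧ _ := by simpa only [lt_min_iff] using h1
  obtain rfl : n = k := by
    by_contra h
    have h5 := hk (fun j => if j = n then 1 else 0) fun j => by split_ifs <;> simp
    have h6 := norm_le_insert (fn n w) 1
    simp only [MP_a7579f_an.FF, ite_mul, one_mul, zero_mul, tsum_ite_eq, if_neg (Ne.symm h),
      sub_zero, le_min_iff] at h5
    rw [norm_one] at h6
    linarith [h5.2]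
  exact (le_of_eq (by congr 1; ring)).trans ((norm_add_le_of_le (le_min_iff.1 (hk _ hc)).1
    (norm_mul_le_of_le (hc n) h3.le)).trans_eq (by ring))

lemma gd_hi {G : ℂ → ℂ} {B : ℝ} (h : Gd G B) : HI (fun t => G (e t)) B := by
  let r : ℕ → ℝ := fun n => n / (n + 1)
  have r1 : Tendsto (fun n => (r n : ℂ)) atTop (𝓝 1) :=
    (continuous_ofReal.tendsto 1).comp (tendsto_natCast_div_add_atTop (1 : ℝ))
  have r2 : ∀ n, ∀ w ∈ closedBall (0 : ℂ) 1, (r n : ℂ) * w ∈ ball (0 : ℂ) 1 := fun n w hw => by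
    rw [mem_ball_zero_iff, norm_mul, Complex.norm_real, Real.norm_of_nonneg (by positivity)]
    exact mul_lt_one_of_nonneg_of_lt_one_left (by positivity)
      ((div_lt_one (by positivity)).2 (lt_add_one _)) (mem_closedBall_zero_iff.1 hw)
  have h2 : ∀ n, HI (fun t => G (r n * e t)) B := fun n => hi_an (G := fun w => G (r n * w))
    (fun w hw => (h.1.analyticOnNhd isOpen_ball _ (r2 n w hw)).comp (f := fun w => (r n : ℂ) * w)
      (by fun_prop)) fun w hw => h.2.2 _ (ball_subset_closedBall (r2 n w (sphere_subset_closedBall hw)))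
  have h3 : ∀ᵐ t ∂μ, Tendsto (fun n => G (r n * e t)) atTop (𝓝 (G (e t))) := by
    filter_upwards [ae_ne 1, ae_ne (-1)] with t h3 h4
    have := sphere_subset_closedBall (e_mem t)
    exact (h.2.1 _ ⟨this, by simp [h3, h4]⟩).tendsto.comp (tendsto_nhdsWithin_iff.2
      ⟨by simpa using r1.mul_const (e t), .of_forall fun n => ball_K (r2 n _ this)⟩)
  refine ⟨⟨aestronglyMeasurable_of_tendsto_ae _ (fun n => (h2 n).1.1) h3, .of_forall fun t =>
    h.2.2 _ (sphere_subset_closedBall (e_mem t))⟩, fun n hn => ?_⟩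
  have h5 := tendsto_integral_of_dominated_convergence _ (fun m => ((bd_four (-n)).mul (h2 m).1).1)
    (integrable_const _) (fun m => ((bd_four (-n)).mul (h2 m).1).2)
    (h3.mono fun t ht => ht.const_mul _)
  have h6 := fun m => (h2 m).2 n hn
  simp only [fourierCoeff, smul_eq_mul] at h6 ⊢
  simpa only [h6, tendsto_const_nhds_iff, eq_comm] using h5

lemma ts_ex (n : ℕ) : ∃ t : T, e t ∈ K ∧ ‖e t - 1‖ ≤ 1 / (n + 1) ∧
    fn n (e t) = cexp (-(π / 4 * I * (1 / (n + 1) : ℝ)) ^ 2) := by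
  obtain ⟨r, hr⟩ : ∃ r : ℝ, r = rexp (2 * (n + 1) ^ 3) := ⟨_, rfl⟩
  have r0 : 0 < r := hr ▸ Real.exp_pos _
  have h1 : (r * I + 1 : ℂ) ≠ 0 := fun h => by simpa using congrArg re h
  obtain ⟨t, ht⟩ := e_surj (w := (r * I - 1) / (r * I + 1)) (by
    rw [mem_sphere_zero_iff_norm, norm_div, div_eq_one_iff_eq (norm_ne_zero_iff.2 h1), ← norm_conj,
      ← norm_neg]
    congr 1; simp [add_comm])
  have h2 : e t - 1 = -2 / (r * I + 1) := by rw [ht]; field_simp; ring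
  have h3 : (1 + e t) / (1 - e t) = r * I := by
    rw [← neg_sub (e t), h2, ht]; field_simp; ring
  have h0 := n.cast_nonneg (α := ℝ)
  refine ⟨t, ⟨sphere_subset_closedBall (e_mem t), ?_⟩, ?_, ?_⟩
  · rintro (h | h)
    · simp [h, h1, eq_comm (a := (0 : ℂ))] at h2
    · rw [Set.mem_singleton_iff.1 h] at h3; simp [eq_comm (a := (0 : ℂ)), r0.ne'] at h3
  · rw [h2, norm_div, norm_neg, Complex.norm_ofNat,
      div_le_div_iff₀ (norm_pos_iff.2 h1) (by positivity)]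
    have := im_le_norm (r * I + 1)
    simp only [add_im, mul_I_im, ofReal_re, one_im] at this
    nlinarith [Real.add_one_le_exp (2 * (n + 1 : ℝ) ^ 3), pow_nonneg h0 2, pow_nonneg h0 3]
  · rw [fn, MP_c4e2dd_an.lam, h3, log_ofReal_mul r0 I_ne_zero, log_I, hr, Real.log_exp]
    congr 3; push_cast; ring

end Pool.Agent.H.MP_e9741b_an
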