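import Pool.Agent.H.MP_e9741b_an.A
namespace Pool.Agent.H.MP_e9741b_an
open Metric Filter Topology Complex MeasureTheory ComplexConjugate BoundedContinuousFunction
open Pool.Agent.H.MP_a7579f_an (L small le_lim fn β β_sum)
open Pool.Agent.H.MP_563d58_an Pool.Agent.H.MP_c4e2dd_an TopologicalSpace
open Pool.Agent.H.MP_ceba03_an Pool.Agent.H.MP_e9aa5f_an Pool.Agent.H.MP_496271_an

abbrev T' := {t : T // t ≠ 0}
abbrev BT := T' →ᵇ ℂ

noncomputable def ex (g : BT) : T → ℂ := Function.extend Subtype.val g 0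

lemma ex_val (g : BT) (t : T') : ex g t = g t := Subtype.val_injective.extend_apply _ _ _

lemma e_zero : e 0 = 1 := by simp [e]

lemma ae0 {p : T → Prop} (h : ∀ t : T', p t) : ∀ᵐ t ∂μ, p t :=
  (ae_ne 1).mono fun t ht => h ⟨t, fun h => ht (h ▸ e_zero)⟩

lemma of_ae {p : T → Prop} (h : ∀ᵐ t ∂μ, p t) (hc : IsClosed {t : T' | p t}) (t : T') : p t :=
  hc.closure_subset (((μ.dense_of_ae h).preimage
    isOpen_ne.isOpenEmbedding_subtypeVal.isOpenMap) t)

lemma ex_bd (g : BT) : Bd (ex g) ‖g‖ := by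
  refine ⟨?_, ae0 fun t => by rw [ex_val]; exact g.norm_coe_le_norm t⟩
  have h : ContinuousOn (ex g) {t | t ≠ 0} := by
    rw [continuousOn_iff_continuous_domRestrict]
    exact g.continuous.congr fun t => (ex_val g t).symm
  have := h.aestronglyMeasurable (μ := μ) isOpen_ne.measurableSet
  rwa [Measure.restrict_eq_self_of_ae_mem (ae0 fun t => t.2)] at this

lemma T'_ne : Nonempty T' := let ⟨t, h, _⟩ := ts_ex 0; ⟨⟨t, fun h0 => (K_ne h).1 (h0 ▸ e_zero)⟩⟩

lemma nrm {g : BT} {B : ℝ} (h : ∀ᵐ t ∂μ, ‖ex g t‖ ≤ B) : ‖g‖ ≤ B :=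
  (norm_le ((norm_nonneg _).trans h.exists.choose_spec)).2 fun t => by
    rw [← ex_val]
    exact of_ae h (by simp only [ex_val]; exact isClosed_le (by fun_prop) continuous_const) t

def HB : Subalgebra ℂ BT where
  carrier := {g | HH (ex g)}
  mul_mem' h1 h2 := HH.congr (HH.mul h1 h2) (ae0 fun t => by simp [ex_val])
  add_mem' h1 h2 := HH.congr (HH.add h1 h2) (ae0 fun t => by simp [ex_val])
  algebraMap_mem' c := HH.congr (HH.const c) (ae0 fun t => by simp [ex_val])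

lemma HB_cl : IsClosed (HB : Set BT) := by
  refine isClosed_of_closure_subset fun f hf => ?_
  obtain ⟨u, h1, h2⟩ := mem_closure_iff_seq_limit.1 hf
  exact ⟨_, hh_unif h1 (ex_bd f) (tendsto_iff_norm_sub_tendsto_zero.1 h2) fun i => ae0 fun t => by
    simpa [ex_val] using (u i - f).norm_coe_le_norm t⟩

lemma bz {ι : Type} {l : Filter ι} {u v : ι → ℂ} {B : ℝ} (h : ∀ y, ‖u y‖ ≤ B)
    (h' : Tendsto v l (𝓝 0)) : Tendsto (fun y => u y * v y) l (𝓝 0) :=
  squeeze_zero_norm (fun y => norm_mul_le_of_le (h y) le_rfl)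
    ((h'.norm.const_mul B).trans_eq (by simp))

lemma tc {ι : Type} {l : Filter ι} {u v : ι → ℂ} {a b : ℂ} (h : Tendsto u l (𝓝 a)) (h1 : a = b)
    (h2 : ∀ y, u y = v y) : Tendsto v l (𝓝 b) := h1 ▸ h.congr h2

def Sl {ι : Type} (l : Filter ι) (a b : ι → T') : Subalgebra ℂ BT where
  carrier := {g | Tendsto (fun y => g (a y) - g (b y)) l (𝓝 0)}
  mul_mem' := fun {f g} h1 h2 => tc ((bz (fun y => f.norm_coe_le_norm (a y)) h2).add
      (bz (fun y => g.norm_coe_le_norm (b y)) h1)) (by simp) fun y => by simp; ring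
  add_mem' h1 h2 := by simpa [add_sub_add_comm] using h1.add h2
  algebraMap_mem' c := by simpa using tendsto_const_nhds

lemma Sl_cl {ι : Type} (l : Filter ι) (a b : ι → T') : IsClosed (Sl l a b : Set BT) :=
  (equicontinuous_of_continuity_modulus (fun r => r + r) 
    ((continuous_id.add continuous_id).tendsto' 0 0 (add_zero _))
    (fun y (g : BT) => g (a y) - g (b y)) fun _ _ _ => (dist_sub_sub_le _ _ _ _).trans
      (add_le_add (dist_coe_le_dist _) (dist_coe_le_dist _))).isClosed_setOfPred_tendsto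
    continuous_const

noncomputable def 𝓖 (t : T) : Filter T' := comap Subtype.val (𝓝 t)

lemma e_inj : Function.Injective e := fun a b h =>
  AddCircle.injective_toCircle one_ne_zero (Circle.ext (by simpa [e] using h))

lemma mem_K {t : T'} (h : e t ≠ -1) : e t ∈ K := ⟨sphere_subset_closedBall (e_mem t), by
  rintro (h1 | h1)
  exacts [t.2 (e_inj (h1.trans e_zero.symm)), h h1]⟩

lemma e_neg (t : T) : e (-t) = conj (e t) := by
  rw [e, e, ← fourier_neg, fourier_apply, fourier_apply, neg_smul, smul_neg]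

lemma 𝓖_iff {ι : Type} {l : Filter ι} {s : ι → T'} {t : T} :
    Tendsto s l (𝓖 t) ↔ Tendsto (fun y => e (s y)) l (𝓝 (e t)) :=
  tendsto_comap_iff.trans (e_cont.isClosedEmbedding e_inj).tendsto_nhds_iff

def ng : C(T', T') := ⟨fun t => ⟨-t.1, neg_ne_zero.2 t.2⟩, by fun_prop⟩

lemma ng_tend : Tendsto ng (𝓖 0) (𝓖 0) :=
  tendsto_comap_iff.2 ((tendsto_comap (f := Subtype.val)).neg.trans_eq (by simp))

noncomputable def st (g : BT) : BT := star (g.compContinuous ng)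

noncomputable def X0 : Subalgebra ℂ BT := HB ⊓ Sl (𝓖 0) id ng

lemma X0_cl : IsClosed (X0 : Set BT) := HB_cl.inter (Sl_cl _ _ _)

lemma st_X0 {g : BT} (h : g ∈ X0) : st g ∈ X0 := by
  refine ⟨⟨_, ex_bd _, fun n hn => ?_⟩, ?_⟩
  · obtain ⟨B, h1⟩ := h.1
    rw [fourierCoeff_congr_ae (g := fun t => conj (ex g (-t))) (ae0 fun t => by
      rw [ex_val]; exact congrArg conj (ex_val g (ng t)).symm), fc_conj, fourierCoeff,
      ← integral_neg_eq_self]
    have := h1.2 n hn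
    simp only [fourierCoeff, neg_neg, fourier_apply, smul_neg, neg_smul] at this ⊢
    simp only [this, map_zero]
  · exact tc (Tendsto.comp h.2 ng_tend).star (by simp) fun t => star_sub _ _

noncomputable def rs (u : C(T, ℂ)) : BT := (mkOfCompact u).compContinuous ⟨Subtype.val, by fun_prop⟩

lemma rs_tend (u : C(T, ℂ)) (t : T) : Tendsto (rs u) (𝓖 t) (𝓝 (u t)) :=
  (u.continuous.tendsto t).comp tendsto_comap

lemma ex_rs (u : C(T, ℂ)) : u =ᵐ[μ] ex (rs u) := ae0 fun t => (ex_val (rs u) t).symm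

noncomputable def ts (n : ℕ) : T' :=
  ⟨(ts_ex n).choose, fun h => (K_ne (ts_ex n).choose_spec.1).1 (h ▸ e_zero)⟩

lemma ts_e : Tendsto (fun n => ‖e (ts n) - 1‖) atTop (𝓝 0) :=
  squeeze_zero (fun _ => norm_nonneg _) (fun n => (ts_ex n).choose_spec.2.1)
    tendsto_one_div_add_atTop_nhds_zero_nat

lemma ts_tend : Tendsto ts atTop (𝓖 0) :=
  𝓖_iff.2 (e_zero ▸ tendsto_iff_norm_sub_tendsto_zero.2 ts_e)

noncomputable def ev : BT →ₐ[ℂ] L where
  toFun f := f.compContinuous ⟨ts, continuous_of_discreteTopology⟩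
  map_one' := rfl
  map_mul' _ _ := rfl
  map_zero' := rfl
  map_add' _ _ := rfl
  commutes' _ := rfl

lemma FF_sc (c : L) : ∃ (M : ℝ) (d : ℕ → ℂ), 0 < M ∧ (∀ n, ‖d n‖ ≤ 1) ∧ (∀ n, c n = M * d n) ∧
    ∀ w, MP_a7579f_an.FF c w = M * MP_a7579f_an.FF d w := by
  have h : (0 : ℝ) < ‖c‖ + 1 := by positivity
  have h1 : ∀ n, c n = (‖c‖ + 1 : ℝ) * (c n / (‖c‖ + 1 : ℝ)) := fun n =>
    (mul_div_cancel₀ _ (ofReal_ne_zero.2 h.ne')).symm
  refine ⟨_, _, h, fun n => ?_, h1, fun w => ?_⟩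
  · rw [norm_div, norm_real, Real.norm_of_nonneg h.le, div_le_one h]
    linarith [c.norm_coe_le_norm n]
  · rw [MP_a7579f_an.FF, MP_a7579f_an.FF, ← tsum_mul_left]
    exact tsum_congr fun n => by rw [← mul_assoc, ← h1]

noncomputable def Gc (c : L) (w : ℂ) : ℂ := (1 + w) / 2 * MP_a7579f_an.FF c w

lemma half_le {w : ℂ} (hw : w ∈ closedBall (0 : ℂ) 1) : ‖(1 + w) / 2‖ ≤ 1 := by
  rw [norm_div, div_le_one (by simp)]
  exact (norm_add_le_of_le norm_one.le (mem_closedBall_zero_iff.1 hw)).trans (by norm_num)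

lemma Gc_gd (c : L) : ∃ B, Gd (MP_a7579f_an.FF c) B ∧ Gd (Gc c) (1 * B) ∧
    Continuous fun t : T' => Gc c (e t) := by
  obtain ⟨M, d, -, h1, -, h2⟩ := FF_sc c
  obtain ⟨B, hB⟩ := pl_gd (u := fun n _ => d n) fun n => ⟨by fun_prop, fun _ _ => h1 n⟩
  have h3 : Gd (MP_a7579f_an.FF c) (‖(M : ℂ)‖ * B) := funext h2 ▸ ⟨hB.1.const_mul _,
    continuousOn_const.mul hB.2.1, fun w hw => norm_mul_le_of_le le_rfl (hB.2.2 w hw)⟩
  have h4 : Gd (Gc c) (1 * _) := ⟨.mul (by fun_prop) h3.1, .mul (by fun_prop) h3.2.1,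
    fun w hw => norm_mul_le_of_le (half_le hw) (h3.2.2 w hw)⟩
  refine ⟨_, h3, h4, continuous_iff_continuousAt.2 fun t => ?_⟩
  have h5 := fun t => sphere_subset_closedBall (e_mem t)
  have h6 : Continuous fun t : T' => e t := e_cont.comp continuous_subtype_val
  by_cases h : e t = -1
  · have := bz (fun s : T' => h3.2.2 _ (h5 s)) ((((h6.tendsto t).const_add 1).div_const 2).trans_eq
      (by simp [h]))
    simpa [ContinuousAt, Gc, h, mul_comm] using this
  · exact (h4.2.1 _ (mem_K h)).tendsto.comp (tendsto_nhdsWithin_iff.2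
      ⟨h6.tendsto t, ((h6.tendsto t).eventually_ne h).mono fun _ => mem_K⟩)

lemma FF_sum' (c : L) (t : T) : Summable fun n => c n * fn n (e t) :=
  ((β_sum _).mul_left ‖c‖).of_norm_bounded fun n =>
    norm_mul_le_of_le (c.norm_coe_le_norm n) (fn_le' n (sphere_subset_closedBall (e_mem t)))

noncomputable def F : L →ₗ[ℂ] BT where
  toFun c := .ofNormedAddCommGroup _ (Gc_gd c).choose_spec.2.2 _ fun t =>
    (Gc_gd c).choose_spec.2.1.2.2 _ (sphere_subset_closedBall (e_mem t))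
  map_add' c d := by
    ext t
    show Gc (c + d) (e t) = Gc c (e t) + Gc d (e t)
    simp only [Gc, MP_a7579f_an.FF, BoundedContinuousFunction.add_apply, add_mul]
    rw [(FF_sum' c t).tsum_add (FF_sum' d t), mul_add]
  map_smul' a c := by
    ext t
    show Gc (a • c) (e t) = a * Gc c (e t)
    simp only [Gc, MP_a7579f_an.FF, BoundedContinuousFunction.smul_apply, smul_eq_mul, mul_assoc]
    rw [tsum_mul_left, mul_left_comm]

lemma F_sub (c : L) : Tendsto (fun t : T' => F c t - MP_a7579f_an.FF c (e t)) (𝓖 0) (𝓝 0) := by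
  obtain ⟨B, h, -⟩ := Gc_gd c
  refine (bz (fun t : T' => h.2.2 _ (sphere_subset_closedBall (e_mem t))) ((((𝓖_iff.1 (tendsto_id
    (x := 𝓖 0))).sub_const 1).div_const 2).trans_eq (by simp [e_zero]))).congr fun t => ?_
  show _ = Gc c (e t) - _
  simp only [Gc, id]; ring

lemma ev_K {δ : ℝ} (h : 0 < δ) : ∀ᶠ t : T' in 𝓖 0, e t ∈ K ∧ ‖e t - 1‖ < δ := by
  have h1 : Tendsto (fun t : T' => e t) (𝓖 0) (𝓝 1) := e_zero ▸ 𝓖_iff.1 tendsto_id
  filter_upwards [h1.eventually_ne (show (1 : ℂ) ≠ -1 by norm_num),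
    (tendsto_iff_norm_sub_tendsto_zero.1 h1).eventually (gt_mem_nhds h)] with t h2 h3
  exact ⟨mem_K h2, h3⟩

lemma tz {ι : Type} {l : Filter ι} {u : ι → ℂ} (h : ∀ ε > 0, ∀ᶠ y in l, ‖u y‖ ≤ ε) :
    Tendsto u l (𝓝 0) := (NormedAddGroup.tendsto_nhds_zero).2 fun _ hε =>
  (h _ (half_pos hε)).mono fun _ h => h.trans_lt (half_lt_self hε)

lemma F_X0 (c : L) : F c ∈ X0 := by
  refine ⟨HH.congr ⟨_, gd_hi (Gc_gd c).choose_spec.2.1⟩ (ae0 fun t => (ex_val (F c) t).symm), ?_⟩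
  obtain ⟨M, d, -, h1, -, h2⟩ := FF_sc c
  have h3 : Tendsto (fun t : T' => MP_a7579f_an.FF d (e t) - MP_a7579f_an.FF d (e (ng t))) (𝓖 0)
      (𝓝 0) := tz fun ε hε => by
    obtain ⟨δ, d0, hδ⟩ := FF_sym h1 hε
    filter_upwards [ev_K d0] with t ht
    exact e_neg t ▸ hδ _ ht.1 ht.2
  exact tc (((F_sub c).sub ((F_sub c).comp ng_tend)).add (h3.const_mul (M : ℂ)))
    (by simp) fun t => by simp only [h2, id, Function.comp]; ring

lemma F_ev (c : L) : Tendsto (fun n => ev (F c) n - c n) atTop (𝓝 0) := by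
  obtain ⟨M, d, -, h1, h0, h2⟩ := FF_sc c
  have h4 : Tendsto (fun n => fn n (e (ts n))) atTop (𝓝 1) := by
    simp only [show ∀ n, fn n (e (ts n)) = _ from fun n => (ts_ex n).choose_spec.2.2]
    exact ((continuous_exp.tendsto _).comp ((((continuous_ofReal.tendsto _).comp
      tendsto_one_div_add_atTop_nhds_zero_nat).const_mul _).pow 2).neg).trans_eq (by simp)
  have h3 : Tendsto (fun n => MP_a7579f_an.FF d (e (ts n)) - d n) atTop (𝓝 0) := tz fun ε hε => by
    obtain ⟨δ, d0, hδ⟩ := FF_pt hε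
    filter_upwards [ts_tend.eventually (ev_K d0),
      (tendsto_iff_norm_sub_tendsto_zero.1 h4).eventually (gt_mem_nhds d0)] with n h5 h6
    exact hδ n _ h5.1 h6 h5.2 d h1
  convert ((F_sub c).comp ts_tend).add (h3.const_mul (M : ℂ)) using 2 with n
  · simp only [h2, h0, Function.comp, show ev (F c) n = F c (ts n) from rfl]; ring
  · simp

end Pool.Agent.H.MP_e9741b_an
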