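import Pool.Agent.H.MP_e9741b_an.B
namespace Pool.Agent.H.MP_e9741b_an
open Metric Filter Topology Complex MeasureTheory ComplexConjugate BoundedContinuousFunction
open Pool.Agent.H.MP_a7579f_an (L small le_lim)
open TopologicalSpace Pool.Agent.H.MP_ceba03_an Pool.Agent.H.MP_e9aa5f_an Pool.Agent.H.MP_496271_an

section
variable {A : Type} [NormedCommRing A] [NormedAlgebra ℂ A]

structure Ch (S : Subalgebra ℂ A) (τ : A →ₗ[ℂ] ℂ) : Prop where
  one : τ 1 = 1
  mul : ∀ {f g}, f ∈ S → g ∈ S → τ (f * g) = τ f * τ g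

variable {S : Subalgebra ℂ A} {τ : A →ₗ[ℂ] ℂ}

noncomputable def Ch.hom (h : Ch S τ) : S →ₐ[ℂ] ℂ :=
  .ofLinearMap (τ ∘ₗ S.val.toLinearMap) h.one fun f g => h.mul f.2 g.2

lemma Ch.le [CompleteSpace A] [NormOneClass A] (h : Ch S τ) (hS : IsClosed (S : Set A)) {f : A}
    (hf : f ∈ S) : ‖τ f‖ ≤ ‖f‖ := by
  have : CompleteSpace S := hS.completeSpace_coe
  exact (AlgHom.norm_apply_le_self_mul_norm_one h.hom ⟨f, hf⟩).trans_eq
    (by rw [show ‖(1 : S)‖ = 1 from norm_one (α := A), mul_one])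

lemma Ch.pow (h : Ch S τ) {f : A} (hf : f ∈ S) (k : ℕ) : τ (f ^ k) = τ f ^ k :=
  map_pow h.hom ⟨f, hf⟩ k
end

noncomputable def x (n : ℕ) : ℂ := (denseSeq (closedBall (0 : ℂ) 1) n.unpair.1 : ℂ)

lemma x_mem (n : ℕ) : x n ∈ closedBall (0 : ℂ) 1 := Subtype.prop _

noncomputable def 𝓐 (a : ℂ) : Filter ℕ := atTop ⊓ comap x (𝓝 a)

lemma 𝓐_ne {a : ℂ} (h : a ∈ closedBall (0 : ℂ) 1) : (𝓐 a).NeBot := by
  rw [𝓐, neBot_inf_comap_iff_map, inf_comm]
  refine mapClusterPt_iff_frequently.2 fun s hs => frequently_atTop.2 fun N => ?_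
  obtain ⟨i, hi⟩ := (denseRange_denseSeq _).mem_nhds
    (continuous_subtype_val.continuousAt.preimage_mem_nhds (x := (⟨a, h⟩ : closedBall _ _)) hs)
  exact ⟨Nat.pair i N, Nat.right_le_pair _ _, by simpa [x] using hi⟩

lemma 𝓐_an {G : ℂ → ℂ} (hG : An G) {a : ℂ} (h : a ∈ closedBall (0 : ℂ) 1) :
    Tendsto (fun n => G (x n)) (𝓐 a) (𝓝 (G a)) :=
  (hG a h).continuousAt.tendsto.comp (tendsto_comap.mono_left inf_le_right)

def Y : Subalgebra ℂ L where
  carrier := {c | ∀ ε > 0, ∃ G, An G ∧ ∀ᶠ n in atTop, ‖c n - G (x n)‖ ≤ ε}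
  mul_mem' := fun {c d} hc hd ε hε => by
    obtain ⟨δ, h0, h1, h2⟩ := small (‖c‖ + (‖d‖ + 1)) hε
    obtain ⟨G, hG, hi⟩ := hc δ h0
    obtain ⟨H, hH, hj⟩ := hd δ h0
    refine ⟨G * H, hG.mul hH, (hi.and hj).mono fun n h => ?_⟩
    rw [show (c * d) n - (G * H) (x n) =
      c n * (d n - H (x n)) + (d n - (d n - H (x n))) * (c n - G (x n)) by simp; ring]
    exact (norm_add_le_of_le (norm_mul_le_of_le (c.norm_coe_le_norm n) h.2) (norm_mul_le_of_le
      (norm_sub_le_of_le (d.norm_coe_le_norm n) (h.2.trans h1)) h.1)).trans (by linarith)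
  add_mem' := fun {c d} hc hd ε hε => by
    obtain ⟨G, hG, hi⟩ := hc _ (half_pos hε)
    obtain ⟨H, hH, hj⟩ := hd _ (half_pos hε)
    refine ⟨G + H, hG.add hH, (hi.and hj).mono fun n h => ?_⟩
    rw [show (c + d) n - (G + H) (x n) = (c n - G (x n)) + (d n - H (x n)) by simp; ring]
    exact (norm_add_le_of_le h.1 h.2).trans (by linarith)
  algebraMap_mem' c ε hε := ⟨fun _ => c, analyticOnNhd_const, .of_forall fun n => by simp [hε.le]⟩

lemma Y_cl : IsClosed (Y : Set L) := by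
  refine isClosed_of_closure_subset fun c hc ε hε => ?_
  obtain ⟨d, h1, h2⟩ := Metric.mem_closure_iff.1 hc _ (half_pos hε)
  obtain ⟨G, hG, hm⟩ := h1 _ (half_pos hε)
  refine ⟨G, hG, hm.mono fun n h => (norm_sub_le_norm_sub_add_norm_sub _ (d n) _).trans ?_⟩
  linarith [dist_coe_le_dist (f := c) (g := d) n, dist_eq_norm (c n) (d n)]

lemma lim_Y {c : L} {a : ℂ} (h : Tendsto c atTop (𝓝 a)) : c ∈ Y := fun _ hε =>
  ⟨fun _ => a, analyticOnNhd_const,
    (tendsto_iff_norm_sub_tendsto_zero.1 h).eventually (ge_mem_nhds hε)⟩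

lemma gl {G : ℂ → ℂ} (h : An G) : ∃ c ∈ Y, ∀ n, c n = G (x n) := by
  obtain ⟨C, hC⟩ := (isCompact_closedBall _ _).exists_bound_of_continuousOn h.continuousOn
  exact ⟨ofNormedAddCommGroupDiscrete (fun n => G (x n)) C fun n => hC _ (x_mem n),
    fun ε hε => ⟨G, h, .of_forall fun n => by simp [hε.le]⟩, fun _ => rfl⟩

lemma Y_inv {c d : L} (hc : c ∈ Y) (h : d * c = 1) : d ∈ Y := fun ε hε => by
  have h1 : ∀ n, d n * c n = 1 := fun n => DFunLike.congr_fun h n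
  obtain ⟨δ, d0, d1, d2⟩ := small (‖d‖ * (2 * ‖d‖) + 2 * ‖d‖ * ε) hε
  have d3 : ‖d‖ * δ ≤ 1 / 2 := le_of_mul_le_mul_right (by nlinarith [norm_nonneg d]) hε
  obtain ⟨G, hG, h2⟩ := hc δ d0
  have h3 : ∀ a ∈ closedBall (0 : ℂ) 1, 1 / 2 ≤ ‖d‖ * ‖G a‖ := fun a ha => by
    have := 𝓐_ne ha
    refine ge_of_tendsto ((𝓐_an hG ha).norm.const_mul _) ((h2.filter_mono inf_le_left).mono
      fun n hn => ?_)
    have := norm_add_le_of_le (norm_mul_le_of_le (d.norm_coe_le_norm n) hn)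
      (norm_mul_le_of_le (d.norm_coe_le_norm n) (le_refl ‖G (x n)‖))
    rw [← mul_add, sub_add_cancel, h1, norm_one] at this
    linarith
  have h4 : ∀ a ∈ closedBall (0 : ℂ) 1, G a ≠ 0 := fun a ha h => by
    have := h3 a ha
    rw [h, norm_zero] at this; linarith
  refine ⟨G⁻¹, hG.inv h4, h2.mono fun n hn => ?_⟩
  have h5 : ‖(G (x n))⁻¹‖ ≤ 2 * ‖d‖ := by
    rw [norm_inv, inv_le_iff_one_le_mul₀ (norm_pos_iff.2 (h4 _ (x_mem n)))]
    linarith [h3 _ (x_mem n)]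
  have h6 := norm_mul_le_of_le (norm_mul_le_of_le (d.norm_coe_le_norm n) h5) hn
  rw [← norm_neg, show -(d n * (G (x n))⁻¹ * (c n - G (x n))) = d n - G⁻¹ (x n) by
    have := mul_inv_cancel₀ (h4 _ (x_mem n))
    rw [Pi.inv_apply]
    linear_combination d n * this - (G (x n))⁻¹ * h1 n] at h6
  nlinarith [mul_nonneg (norm_nonneg d) (mul_pos hε d0).le]

lemma Y_conj {c : L} (h : ∀ n, c n = conj (x n)) : c ∉ Y := fun hc => by
  obtain ⟨G, hG, h1⟩ := hc _ one_half_pos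
  have := maxA (G := fun w => 1 - w * G w) (analyticOnNhd_const.sub (analyticOnNhd_id.mul hG))
    (B := 1 / 2) (fun w hw => by
      have h2 := sphere_subset_closedBall hw
      have := 𝓐_ne h2
      have h3 := le_of_tendsto (((continuous_conj.tendsto w).comp (𝓐_an analyticOnNhd_id h2)).sub
        (𝓐_an hG h2)).norm ((h1.filter_mono inf_le_left).mono fun n hn => by rwa [h] at hn)
      rwa [← cj hw, mul_comm (conj w), ← mul_sub, norm_mul, mem_sphere_zero_iff_norm.1 hw, one_mul])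
    (z := 0) (by simp)
  norm_num at this

lemma Y_ch {α : L →ₗ[ℂ] ℂ} (h : Ch Y α) (h0 : ∀ c : L, Tendsto c atTop (𝓝 0) → α c = 0) :
    ∃ a ∈ closedBall (0 : ℂ) 1, ∀ c ∈ Y, Tendsto c (𝓐 a) (𝓝 (α c)) := by
  have h1 : ∀ c ∈ Y, ∀ B, (∀ᶠ n in atTop, ‖c n‖ ≤ B) → ‖α c‖ ≤ B := fun c hc B hB => by
    obtain ⟨N, hN⟩ := eventually_atTop.1 hB
    let d : L := ofNormedAddCommGroupDiscrete (fun n => if N ≤ n then 0 else c n) ‖c‖ fun n => by
      split_ifs; exacts [by simp, c.norm_coe_le_norm n]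
    have h1 : Tendsto d atTop (𝓝 0) := tendsto_const_nhds.congr'
      ((eventually_ge_atTop N).mono fun n hn => (if_pos hn).symm)
    have B0 := (norm_nonneg _).trans (hN N le_rfl)
    have := (h.le Y_cl (sub_mem hc (lim_Y h1))).trans ((norm_le B0).2 fun n => by
      show ‖c n - if N ≤ n then 0 else c n‖ ≤ B
      split_ifs with h2; exacts [by simpa using hN n h2, by simpa])
    rwa [map_sub, h0 d h1, sub_zero] at this
  obtain ⟨z, hz, h2⟩ := gl analyticOnNhd_id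
  have ha : α z ∈ closedBall (0 : ℂ) 1 := mem_closedBall_zero_iff.2
    (h1 z hz 1 (.of_forall fun n => h2 n ▸ mem_closedBall_zero_iff.1 (x_mem n)))
  refine ⟨_, ha, fun c hc => tendsto_sub_nhds_zero_iff.1 (tz fun ε hε => ?_)⟩
  obtain ⟨G, hG, h3⟩ := hc (ε / 3) (by positivity)
  obtain ⟨u, hu, h4⟩ := gl (hG.dslope ha)
  have h5 := h1 (c - (G (α z) • 1 + (z - α z • 1) * u)) (sub_mem hc (add_mem (Y.smul_mem (one_mem _) _)
    (mul_mem (sub_mem hz (Y.smul_mem (one_mem _) _)) hu))) _ (h3.mono fun n hn => by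
      have := sub_smul_dslope G (α z) (x n)
      convert hn using 2
      simp [h2, h4, show (x n - α z) * _ = _ from this])
  rw [map_sub, map_add, h.mul (sub_mem hz (Y.smul_mem (one_mem _) _)) hu] at h5
  simp only [map_sub, map_smul, h.one, smul_eq_mul, mul_one, sub_self, zero_mul, add_zero] at h5
  filter_upwards [h3.filter_mono inf_le_left, (tendsto_iff_norm_sub_tendsto_zero.1
    (𝓐_an hG ha)).eventually (ge_mem_nhds (show 0 < ε / 3 by positivity))] with n h6 h7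
  exact (le_of_eq (by congr 1; ring)).trans
    ((norm_sub_le_of_le (norm_add_le_of_le h6 h7) h5).trans_eq (by ring))

end Pool.Agent.H.MP_e9741b_an
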