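import Pool.Agent.H.MP_e9741b_an.C
namespace Pool.Agent.H.MP_e9741b_an
open Metric Filter Topology Complex MeasureTheory ComplexConjugate BoundedContinuousFunction
open Pool.Agent.H.MP_a7579f_an (L small le_lim)
open Pool.Agent.H.MP_ceba03_an Pool.Agent.H.MP_e9aa5f_an Pool.Agent.H.MP_496271_an

instance : Nonempty T' := T'_ne

noncomputable def XX : Subalgebra ℂ BT := X0 ⊓ Y.comap ev

lemma XX_cl : IsClosed (XX : Set BT) := X0_cl.inter (Y_cl.preimage (continuous_compContinuous _))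

def J (f : BT) : Prop := f ∈ X0 ∧ Tendsto (ev f) atTop (𝓝 0)

lemma J.X {f : BT} (h : J f) : f ∈ XX := ⟨h.1, lim_Y h.2⟩

lemma J.mul {f j : BT} (h : J j) (hf : f ∈ X0) : J (f * j) :=
  ⟨mul_mem hf h.1, bz (ev f).norm_coe_le_norm h.2⟩

lemma F_X {c : L} (h : c ∈ Y) : F c ∈ XX :=
  ⟨F_X0 c, by simpa using add_mem (lim_Y (c := ev (F c) - c) (F_ev c)) h⟩

lemma rs_X {u : C(T, ℂ)} (h : HH u) : rs u ∈ XX :=
  ⟨⟨HH.congr h (ex_rs u), tc ((rs_tend u 0).sub ((rs_tend u 0).comp ng_tend)) (sub_self _)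
    fun _ => rfl⟩, lim_Y ((rs_tend u 0).comp ts_tend)⟩

noncomputable def Pu (t : T) : C(T, ℂ) :=
  ⟨fun s => (1 + conj (e t) * e s) / 2, by have := e_cont; fun_prop⟩

lemma Pu_lt {t s : T} (h : s ≠ t) : ‖Pu t s‖ < 1 := by
  have := norm_combo_lt_of_ne (x := (1 : ℂ)) (y := conj (e t) * e s) norm_one.le
    (by simp [e_norm]) (fun h1 => h (e_inj (by
      linear_combination -e t * h1 - e s * cj (e_mem t)))) one_half_pos one_half_pos (add_halves 1)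
  exact (congrArg norm (by simp [Pu]; ring)).trans_lt this

lemma Pu_self (t : T) : Pu t t = 1 := by simp [Pu, cj (e_mem t)]

noncomputable def P (t : T) : BT := rs (Pu t)

lemma P_X (t : T) : P t ∈ XX := rs_X (MP_c4e2dd_an.hh_an (G := fun w => (1 + conj (e t) * w) / 2)
  fun _ _ => by fun_prop :)

lemma P_le (t : T) (s : T') : ‖P t s‖ ≤ 1 :=
  (eq_or_ne s.1 t).elim (fun h => by rw [← h]; exact (congrArg norm (Pu_self _)).trans_le norm_one.le)
    fun h => (Pu_lt h).le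

lemma away {t : T} {U : Set T'} (h : U ∈ 𝓖 t) : ∃ q < 1, 0 ≤ q ∧ ∀ s ∉ U, ‖P t s‖ ≤ q := by
  obtain ⟨V, h1, h2⟩ := mem_comap.1 h
  obtain ⟨a, h3, h4⟩ := (isOpen_interior (s := V)).isClosed_compl.isCompact.exists_forall_le'
    (f := fun s => -‖Pu t s‖) (a := -1) (by fun_prop) fun s hs => neg_lt_neg
      (Pu_lt (by rintro rfl; exact hs (mem_interior_iff_mem_nhds.2 h1)))
  exact ⟨max (-a) 0, max_lt (by linarith) one_pos, le_max_right _ _, fun s hs => le_max_of_le_left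
    (le_neg.1 (h4 s fun h => hs (h2 (interior_subset (s := V) h))))⟩

variable {S : Subalgebra ℂ BT} {τ : BT →ₗ[ℂ] ℂ} {t : T}

lemma Ch.evle (h : Ch S τ) (hS : IsClosed (S : Set BT)) (hP : P t ∈ S) (h1 : 1 ≤ ‖τ (P t)‖)
    {f : BT} (hf : f ∈ S) {B : ℝ} (hB : 0 ≤ B) (h2 : ∀ᶠ s in 𝓖 t, ‖f s‖ ≤ B) : ‖τ f‖ ≤ B :=
  le_of_forall_pos_le_add fun ε hε => by
    obtain ⟨q, q1, q0, q2⟩ := away h2
    obtain ⟨k, hk⟩ := (((tendsto_pow_atTop_nhds_zero_of_lt_one q0 q1).const_mul ‖f‖).eventually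
      (ge_mem_nhds (by simpa using hε))).exists
    refine le_trans ?_ ((h.le hS (mul_mem hf (pow_mem hP k))).trans
      ((norm_le (by positivity)).2 fun w => ?_))
    · rw [h.mul hf (pow_mem hP k), h.pow hP, norm_mul, norm_pow]
      exact le_mul_of_one_le_right (norm_nonneg _) (one_le_pow₀ h1)
    rw [mul_apply, pow_apply]
    by_cases hw : ‖f w‖ ≤ B
    · exact (norm_mul_le_of_le hw ((norm_pow _ k).trans_le
        (pow_le_one₀ (norm_nonneg _) (P_le t w)))).trans (by linarith)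
    · exact (norm_mul_le_of_le (f.norm_coe_le_norm w) ((norm_pow _ k).trans_le
        (pow_le_pow_left₀ (norm_nonneg _) (q2 w hw) k))).trans (by linarith)

lemma pt {t : T'} (h : Ch XX τ) (h1 : 1 ≤ ‖τ (P t)‖) {f : BT} (hf : f ∈ XX) : τ f = f t := by
  rw [← sub_eq_zero, ← norm_le_zero_iff]
  refine le_of_forall_pos_le_add fun ε hε => ?_
  have := h.evle XX_cl (P_X t) h1 (sub_mem hf (XX.smul_mem (one_mem _) (f t))) hε.le (by
    rw [show 𝓖 t = 𝓝 t from (nhds_subtype _ t).symm]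
    simpa using (tendsto_iff_norm_sub_tendsto_zero.1 (f.continuous.tendsto t)).eventually
      (ge_mem_nhds hε))
  simpa [h.one] using this

lemma st_sq {f : BT} (h : f ∈ X0) :
    Tendsto (fun s => (‖f s‖ ^ 2 : ℝ) - (f * st f) s) (𝓖 0) (𝓝 0) :=
  tc (bz f.norm_coe_le_norm ((Tendsto.star h.2).trans_eq (congrArg _ (star_zero _)) :
    Tendsto (fun s => star (f s - f (ng s))) _ _)) rfl fun s => by
    rw [ofReal_pow, ← mul_conj', star_sub, mul_sub]; rfl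

lemma fib0 (h : Ch X0 τ) (h1 : 1 ≤ ‖τ (P 0)‖) :
    ∃ l : Filter T', l.NeBot ∧ ∀ f ∈ X0, Tendsto f l (𝓝 (τ f)) := by
  have h0 : ∀ f ∈ X0, τ f = 0 → τ (f * st f) = 0 := fun f hf h0 => by
    rw [h.mul hf (st_X0 hf), h0, zero_mul]
  refine ⟨⨅ f : {f // f ∈ X0 ∧ τ f = 0}, 𝓖 0 ⊓ comap f.1 (𝓝 0), iInf_neBot_of_directed
    (fun ⟨f, hf, f0⟩ ⟨g, hg, g0⟩ => ?_) fun ⟨f, hf, f0⟩ => ?_, fun f hf => ?_⟩
  · have h2 : Tendsto (fun s => ‖f s‖ ^ 2 + ‖g s‖ ^ 2)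
        (𝓖 0 ⊓ comap (f * st f + g * st g) (𝓝 0)) (𝓝 0) := by
      have := (continuous_re.tendsto _).comp (((((st_sq hf).add (st_sq hg)).mono_left
        inf_le_left).add (tendsto_comap.mono_left
          (inf_le_right (b := comap (f * st f + g * st g) (𝓝 0))))))
      simpa [Function.comp_def, -ofReal_pow, sub_add_sub_comm] using this
    have h3 : ∀ {u : T' → ℂ} {l}, Tendsto (fun s => ‖u s‖ ^ 2) l (𝓝 0) → Tendsto u l (𝓝 0) :=
      fun h => tendsto_zero_iff_norm_tendsto_zero.2 (by simpa using h.sqrt)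
    exact ⟨⟨_, add_mem (mul_mem hf (st_X0 hf)) (mul_mem hg (st_X0 hg)), by
      rw [map_add, h0 f hf f0, h0 g hg g0, add_zero]⟩, le_inf inf_le_left (tendsto_iff_comap.1 (h3
      (squeeze_zero (fun _ => by positivity) (fun _ => le_add_of_nonneg_right (by positivity)) h2))),
      le_inf inf_le_left (tendsto_iff_comap.1 (h3 (squeeze_zero (fun _ => by positivity)
        (fun _ => le_add_of_nonneg_left (by positivity)) h2)))⟩
  · rw [neBot_inf_comap_iff_map, inf_comm]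
    refine mapClusterPt_iff_frequently.2 fun s hs => by_contra fun h2 => ?_
    obtain ⟨δ, d0, hδ⟩ := Metric.mem_nhds_iff.1 hs
    have M0 : 0 < (‖f‖ ^ 2 + δ ^ 2)⁻¹ := by positivity
    have M1 := inv_mul_cancel₀ (inv_pos.1 M0).ne'
    generalize (‖f‖ ^ 2 + δ ^ 2)⁻¹ = M at M0 M1
    have := h.evle X0_cl (P_X 0).1 h1 (sub_mem (one_mem _) (X0.smul_mem (mul_mem hf (st_X0 hf)) M))
      (B := 1 - M * δ ^ 2 + M * (δ ^ 2 / 2)) (by nlinarith [mul_nonneg M0.le (sq_nonneg ‖f‖)]) (by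
        filter_upwards [not_frequently.1 h2, (st_sq hf).norm.eventually
          (ge_mem_nhds (a := δ ^ 2 / 2) (by simp; positivity))] with s h3 h4
        have h5 : δ ≤ ‖f s‖ := not_lt.1 fun h => h3 (hδ (by simpa))
        have h6 := pow_le_pow_left₀ (norm_nonneg _) (f.norm_coe_le_norm s) 2
        rw [show (1 - (M : ℂ) • (f * st f)) s = (1 - M * ‖f s‖ ^ 2 : ℝ) +
          M * ((‖f s‖ ^ 2 : ℝ) - (f * st f) s) by simp; ring]
        refine norm_add_le_of_le ?_ (norm_mul_le_of_le (by simp [abs_of_pos M0]) h4)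
        rw [norm_real, Real.norm_of_nonneg (by nlinarith [sq_nonneg δ])]
        gcongr)
    rw [map_sub, map_smul, h0 f hf f0, h.one, smul_zero, sub_zero, norm_one] at this
    nlinarith [mul_pos M0 (pow_pos d0 2)]
  · refine tendsto_sub_nhds_zero_iff.1 (Tendsto.congr (f₁ := (f - τ f • 1 : BT)) (by simp)
      (tendsto_iff_comap.2 (iInf_le_of_le ⟨_, sub_mem hf (X0.smul_mem (one_mem _) _), ?_⟩
        inf_le_right)))
    simp [h.one]

lemma fib (h : Ch XX τ) (h1 : 1 ≤ ‖τ (P 0)‖) :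
    ∃ l : Filter T', l.NeBot ∧ ∀ f ∈ XX, Tendsto f l (𝓝 (τ f)) := by
  by_cases hk : ∀ j, J j → τ j = 0
  · have h2 : ∀ f ∈ X0, τ (F (ev f)) = τ f := fun f hf =>
      sub_eq_zero.1 ((map_sub τ _ _).symm.trans (hk _ ⟨sub_mem (F_X0 _) hf, F_ev _⟩))
    obtain ⟨a, ha, h3⟩ := Y_ch (α := τ ∘ₗ F) ⟨by simpa [h.one] using h2 1 (one_mem _),
      fun {c d} hc hd => by
        have := hk _ ⟨sub_mem (F_X0 (c * d)) (mul_mem (F_X0 c) (F_X0 d)), tc (((F_ev (c * d)).sub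
          (bz c.norm_coe_le_norm (F_ev d))).sub (bz (ev (F d)).norm_coe_le_norm (F_ev c)))
          (by simp) fun n => by simp; ring⟩
        rwa [map_sub, h.mul (F_X hc) (F_X hd), sub_eq_zero] at this⟩
      fun c hc => hk _ ⟨F_X0 c, tc ((F_ev c).add hc) (by simp) (by simp)⟩
    have := 𝓐_ne ha
    exact ⟨map ts (𝓐 a), inferInstance, fun f hf => h2 f hf.1 ▸ h3 _ hf.2⟩
  push Not at hk
  obtain ⟨j, hj, h0⟩ := hk
  have h2 : ∀ f ∈ XX, ((τ j)⁻¹ • τ ∘ₗ LinearMap.mulRight ℂ j) f = τ f := fun f hf => by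
    simp [h.mul hf hj.X, h0, mul_comm (τ f)]
  obtain ⟨l, h3, h4⟩ := fib0 (τ := (τ j)⁻¹ • τ ∘ₗ LinearMap.mulRight ℂ j)
    ⟨by simp [h0], fun {f g} hf hg => by
      have h1 := h.mul (hj.mul hf).X (hj.mul hg).X
      rw [show f * j * (g * j) = j * (f * g * j) by ring,
        h.mul hj.X (hj.mul (mul_mem hf hg)).X] at h1
      simp only [LinearMap.smul_apply, LinearMap.comp_apply, LinearMap.mulRight_apply, smul_eq_mul]
      field_simp
      linear_combination h1⟩ (by rwa [h2 _ (P_X 0)])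
  exact ⟨l, h3, fun f hf => h2 f hf ▸ h4 f hf.1⟩

lemma fiber (h : Ch XX τ) (h1 : ‖τ (rs (fourier 1))‖ = 1) :
    ∃ l : Filter T', l.NeBot ∧ ∀ f ∈ XX, Tendsto f l (𝓝 (τ f)) := by
  obtain ⟨t, ht⟩ := e_surj (mem_sphere_zero_iff_norm.2 h1)
  have h2 : 1 ≤ ‖τ (P t)‖ := by
    rw [show P t = (1 / 2 : ℂ) • (1 + conj (e t) • rs (fourier 1)) by
      ext s; simp [P, rs, Pu, e]; ring, map_smul, map_add, map_smul, ← ht, h.one, smul_eq_mul,
      smul_eq_mul, cj (e_mem t)]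
    norm_num
  by_cases h0 : t = 0
  · exact fib h (h0 ▸ h2)
  · exact ⟨pure ⟨t, h0⟩, inferInstance, fun f hf => pt (t := ⟨t, h0⟩) h h2 hf ▸ tendsto_pure_nhds _ _⟩

lemma divX {f k : BT} (hf : f ∈ XX) (hk : k ∈ XX) {q : T → ℂ} (hq : HH q) {δ : ℝ} (d0 : 0 < δ)
    (h1 : ∀ᵐ t ∂μ, δ ≤ ‖ex k t‖) (h2 : ∀ᵐ t ∂μ, ex k t * q t = ex f t) : ∃ g ∈ XX, q =ᵐ[μ] ex g := by
  have h3 : ∀ t : T', δ ≤ ‖k t‖ := fun t => ex_val k t ▸
    of_ae h1 (by simp only [ex_val]; exact isClosed_le continuous_const (by fun_prop)) t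
  have h4 : ∀ t : T', k t ≠ 0 := fun t => norm_pos_iff.1 (d0.trans_le (h3 t))
  obtain ⟨d, hd⟩ : ∃ d : BT, d * k = 1 := ⟨.ofNormedAddCommGroup _ (k.continuous.inv₀ h4) δ⁻¹
    fun t => (norm_inv _).trans_le (inv_anti₀ d0 (h3 t)), by ext t; exact inv_mul_cancel₀ (h4 t)⟩
  have h5 : ∀ t, d t * k t = 1 := fun t => DFunLike.congr_fun hd t
  have h6 : q =ᵐ[μ] ex (f * d) := by
    filter_upwards [h2, ae0 (p := fun t => ∃ s : T', s.1 = t) fun t => ⟨t, rfl⟩] with t h ⟨s, hs⟩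
    simp only [← hs, ex_val, mul_apply] at h ⊢
    linear_combination d s * h - q s * h5 s
  refine ⟨_, ⟨⟨HH.congr hq h6, mul_mem hf.1.2 (tc (bz d.norm_coe_le_norm (bz (fun s =>
    d.norm_coe_le_norm (ng s)) hk.1.2)).neg neg_zero fun s => ?_)⟩, mul_mem hf.2
      (Y_inv hk.2 (by rw [← map_one ev, ← hd, map_mul]; rfl))⟩, h6⟩
  simp only [id]
  linear_combination d s * h5 (ng s) - d (ng s) * h5 s

end Pool.Agent.H.MP_e9741b_an
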