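import Pool.Agent.H.MP_e9741b_an.E
namespace Pool.Agent.H.MP_e9741b_an
open Metric Filter Topology Complex MeasureTheory ComplexConjugate
open Pool.Agent.H.MP_ceba03_an Pool.Agent.H.MP_e9aa5f_an Pool.Agent.H.MP_496271_an

lemma hh_four (n : ℕ) : HH (fourier n) := HH.congr
  (MP_c4e2dd_an.hh_an (G := fun w => w ^ n) (fun _ _ => by fun_prop) :) (.of_forall fun t =>
    (e_pow n t).symm)

lemma four_norm (n : ℤ) (t : T) : ‖fourier n t‖ = 1 := Circle.norm_coe _

lemma inner_cont {I h : T → ℂ} (hI : HH I) (h1 : ∀ᵐ t ∂μ, ‖I t‖ = 1) (hh : HH h) (n : ℕ)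
    (h2 : ∀ᵐ t ∂μ, ‖fourier (n + 1 : ℕ) t - h t * I t‖ ≤ 1 / 2) : ∃ u : C(T, ℂ), I =ᵐ[μ] u := by
  have hk := HH.hi (HH.sub (hh_four (n + 1)) (HH.mul hh hI)) h2
  obtain ⟨k, h3⟩ : ∃ k, k = fun t => fourier (n + 1 : ℕ) t - h t * I t := ⟨_, rfl⟩
  rw [← h3] at hk
  have h4 : ∀ m : ℕ, ∃ r, HH r ∧ ∀ t, fourier ((n + 1) * m : ℕ) t = k t ^ m + I t * r t := fun m => by
    induction m with
    | zero => exact ⟨_, HH.const 0, by simp⟩
    | succ m ih =>
      obtain ⟨r, r1, r2⟩ := ih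
      refine ⟨_, HH.add (HH.mul hh ⟨_, hi_pow hk m⟩) (HH.mul r1 (hh_four (n + 1))), fun t => ?_⟩
      rw [mul_add, mul_one, Nat.cast_add, fourier_add, r2, pow_succ, h3]; ring
  have bI := bd_conj (HH.hi hI (h1.mono fun _ h => h.le)).1
  have h5 : ∀ N : ℕ, ‖fourierCoeff I (N + 1 : ℕ)‖ ≤ (1 / 2) ^ (N / (n + 1)) * 1 := fun N => by
    obtain ⟨r, ⟨B, r1⟩, r2⟩ := h4 (N / (n + 1))
    have h5 := r1.2 (-(N % (n + 1) + 1 : ℕ)) (by omega)
    have h6 := ((bd_four (N % (n + 1) + 1 : ℕ)).mul (hi_pow hk (N / (n + 1))).1).mul bI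
    rw [← norm_conj, ← neg_neg ((N + 1 : ℕ) : ℤ), ← fc_conj, fourierCoeff, neg_neg,
      integral_congr_ae (g := fun t => fourier (N % (n + 1) + 1 : ℕ) t * k t ^ (N / (n + 1)) *
        conj (I t) + fourier (N % (n + 1) + 1 : ℕ) t * r t) (h1.mono fun t ht => by
          rw [show ((N + 1 : ℕ) : ℤ) = (N % (n + 1) + 1 : ℕ) + ((n + 1) * (N / (n + 1)) : ℕ) by
            rw [← Nat.cast_add, add_right_comm, Nat.mod_add_div], fourier_add, r2, smul_eq_mul]
          have := mul_conj' (I t)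
          rw [ht, ofReal_one] at this
          linear_combination fourier (N % (n + 1) + 1 : ℕ) t * r t * this),
      integral_add h6.int ((bd_four _).mul r1.1).int]
    rw [fourierCoeff, neg_neg] at h5
    rw [show ∫ t, fourier (N % (n + 1) + 1 : ℕ) t * r t ∂μ = 0 from h5, add_zero]
    simpa using norm_integral_le_of_norm_le_const h6.2
  have h6 : Summable fun m => fourierCoeff I m • (fourier m : C(T, ℂ)) := by
    refine .of_norm (by
      simp only [norm_smul, fourier_norm, mul_one]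
      have h6 := (summable_mul_of_summable_norm (g := fun _ : Fin (n + 1) => 1)
        summable_geometric_two.norm .of_finite).comp_injective (Nat.divModEquiv (n + 1)).injective
      refine .of_nat_of_neg_add_one ((summable_nat_add_iff
        (f := fun N : ℕ => ‖fourierCoeff I N‖) 1).1 (.of_nonneg_of_le
          (fun _ => norm_nonneg _) h5 (h6.congr fun _ => rfl))) ?_
      obtain ⟨B, hB⟩ := hI
      simpa only [fun m : ℕ => hB.2 (-(m + 1)) (by omega), norm_zero] using summable_zero)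
  refine ⟨∑' m, fourierCoeff I m • fourier m, ?_⟩
  have h7 := (bd_cont (∑' m, fourierCoeff I m • (fourier m : C(T, ℂ))).continuous).choose_spec.int
  filter_upwards [zero_of ((HH.int hI).sub h7) fun m => by
    refine (fc_sub (HH.int hI) h7 m).trans (sub_eq_zero.2 ?_)
    rw [← co_toL]
    refine Eq.trans ?_ (h6.hasSum.mapL ((co m).comp toL)).tsum_eq
    simp [co_fourier]] with t ht using sub_eq_zero.1 ht

lemma conj_split {g : BT} (h : g ∈ X0) :
    ∃ u : C(T, ℂ), ∀ t : T', conj (g t) = st g t + u t := by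
  refine ⟨⟨ex (star g - st g), continuous_iff_continuousAt.2 fun t => ?_⟩, fun t => by simp [ex_val]⟩
  by_cases h0 : t = 0
  · subst h0
    have h1 : ex (star g - st g) 0 = 0 := Function.extend_apply' _ _ _ fun ⟨a, h⟩ => a.2 h
    rw [← continuousWithinAt_compl_self, ContinuousWithinAt, h1, nhdsWithin,
      ← subtype_coe_map_comap, tendsto_map'_iff]
    exact tc (Tendsto.star h.2) (star_zero _) fun s =>
      (star_sub _ _).trans (ex_val (star g - st g) s).symm
  · exact (isOpen_ne.isOpenEmbedding_subtypeVal.continuousAt_iff (x := ⟨t, h0⟩)).1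
      ((star g - st g).continuous.congr fun s => (ex_val _ s).symm).continuousAt

noncomputable def C' : Subalgebra ℂ BT := Sl (𝓖 0 ×ˢ 𝓖 0) Prod.snd Prod.fst

lemma rs_C (u : C(T, ℂ)) : rs u ∈ C' :=
  tc (((rs_tend u 0).comp tendsto_snd).sub ((rs_tend u 0).comp tendsto_fst)) (sub_self _) fun _ => rfl

lemma C_X {g : BT} (h : g ∈ C') (h1 : g ∈ HB) : g ∈ XX := by
  have := ts_tend.neBot
  obtain ⟨c, hc⟩ := cauchy_map_iff_exists_tendsto.1 ((cauchy_map_iff (f := g)).2
    ⟨this, by rw [_root_.uniformity_eq_comap_nhds_zero, tendsto_comap_iff]; exact h⟩)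
  exact ⟨⟨h1, Tendsto.comp h (ng_tend.prodMk tendsto_id)⟩, lim_Y (hc.comp ts_tend)⟩

lemma ex_lim {S : Set BT} (hS : IsClosed S) {f : T → ℂ}
    (h : ∀ ε > 0, ∃ g ∈ S, ∀ᵐ t ∂μ, ‖f t - ex g t‖ ≤ ε) : ∃ g ∈ S, f =ᵐ[μ] ex g := by
  choose g h1 h2 using fun n : ℕ => h (1 / (n + 1)) (by positivity)
  have h0 := tendsto_one_div_add_atTop_nhds_zero_nat (𝕜 := ℝ)
  obtain ⟨k, hk⟩ := cauchySeq_tendsto_of_complete (cauchySeq_of_le_tendsto_0 (s := g) _
    (fun n m N hn hm => (dist_eq_norm _ _).trans_le (nrm (by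
      filter_upwards [h2 n, h2 m, ae0 (p := fun t => ex (g n - g m) t = ex (g n) t - ex (g m) t)
        fun t => by simp [ex_val]] with t h3 h4 h5
      rw [h5, ← sub_sub_sub_cancel_left _ _ (f t)]
      exact norm_sub_le_of_le (h4.trans (Nat.one_div_le_one_div hm))
        (h3.trans (Nat.one_div_le_one_div hn))))) ((h0.add h0).trans_eq (by simp)))
  refine ⟨k, hS.mem_of_tendsto hk (.of_forall h1), ?_⟩
  filter_upwards [ae_all_iff.2 h2, ae0 (p := fun t => ∃ s : T', s.1 = t) fun t => ⟨t, rfl⟩]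
    with t h3 ⟨s, hs⟩
  simp only [← hs, ex_val] at h3 ⊢
  exact tendsto_nhds_unique (f := fun n => g n s) (tc ((squeeze_zero_norm h3 h0).const_sub (f s))
    (sub_zero _) (by simp)) (((continuous_eval_const s).tendsto k).comp hk)

lemma ex_inj {f g : BT} (h : ex f =ᵐ[μ] ex g) : f = g := sub_eq_zero.1 (norm_le_zero_iff.1 (nrm (by
  filter_upwards [h, ae0 (p := fun t => ex (f - g) t = ex f t - ex g t) fun t => by simp [ex_val]]
    with t h1 h2
  simp [h1, h2])))

end Pool.Agent.H.MP_e9741b_an
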